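import Pool.Agent.Helper83.RB.St

/-!
# Project RB, module LEX: lexicographic order and permuted blocks of words
-/

set_option autoImplicit false

namespace Pool.Agent.Helper3.RB

open Pool.Agent.Helper83.RB

theorem app_lt {r : ℕ} : ∀ (a b x y : List (Fin r)), a.length = b.length → a < b →
    a ++ x < b ++ y := by
  intro a
  induction a with
  | nil =>
    intro b x y hl hab
    have hb : b = [] := List.eq_nil_of_length_eq_zero (by simpa using hl.symm)
    subst hb
    exact absurd hab (lt_irrefl _)
  | cons h t ih =>
    intro b x y hl hab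
    cases b with
    | nil => simp at hl
    | cons h' t' =>
      rw [List.cons_append, List.cons_append, List.cons_lt_cons_iff]
      rcases List.cons_lt_cons_iff.1 hab with h1 | ⟨h1, h2⟩
      · exact Or.inl h1
      · exact Or.inr ⟨h1, ih t' x y (by simpa using hl) h2⟩

theorem left_lt {r : ℕ} : ∀ (c a b : List (Fin r)), a < b → c ++ a < c ++ b := by
  intro c
  induction c with
  | nil => intro a b h; simpa using h
  | cons h t ih =>
    intro a b hab
    rw [List.cons_append, List.cons_append, List.cons_lt_cons_iff]
    exact Or.inr ⟨rfl, ih a b hab⟩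

theorem fl_lt {r : ℕ} : ∀ (d : ℕ) (f g : Fin d → List (Fin r)) (j : Fin d),
    (∀ i, i < j → f i = g i) → (∀ x y, f j ++ x < g j ++ y) →
    (List.ofFn f).flatten < (List.ofFn g).flatten := by
  intro d
  induction d with
  | zero => intro f g j; exact j.elim0
  | succ d ih =>
    intro f g j hf hj
    rw [List.ofFn_succ, List.ofFn_succ, List.flatten_cons, List.flatten_cons]
    rcases Fin.eq_zero_or_eq_succ j with h0 | ⟨j', hj'⟩
    · subst h0
      exact hj _ _
    · subst hj'
      rw [hf 0 (Fin.succ_pos j')]
      refine left_lt _ _ _ (ih (fun i => f i.succ) (fun i => g i.succ) j' ?_ hj)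
      intro i hi
      exact hf i.succ (Fin.succ_lt_succ_iff.2 hi)

theorem hLEX : StLEX := by
  classical
  intro r d L v s hv hlt σ hσ
  have hex : ∃ j : Fin d, σ j ≠ j := by
    by_contra h
    push Not at h
    exact hσ (Equiv.ext h)
  have hne : (Finset.univ.filter fun j : Fin d => σ j ≠ j).Nonempty := by
    obtain ⟨j, hj⟩ := hex
    exact ⟨j, by simpa using hj⟩
  set j := (Finset.univ.filter fun j : Fin d => σ j ≠ j).min' hne with hjdef
  have hj : σ j ≠ j := by
    have := Finset.min'_mem _ hne
    rw [← hjdef] at this
    simpa using this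
  have hmin : ∀ i, i < j → σ i = i := by
    intro i hi
    by_contra h
    have := Finset.min'_le (Finset.univ.filter fun j : Fin d => σ j ≠ j) i (by simpa using h)
    rw [← hjdef] at this
    exact absurd hi (not_lt.2 this)
  have hgt : j < σ j := by
    rcases lt_trichotomy (σ j) j with h | h | h
    · have := hmin _ h
      exact absurd (σ.injective this) hj
    · exact absurd h hj
    · exact h
  refine fl_lt d _ _ j ?_ ?_
  · intro i hi
    rw [hmin i hi]
  · intro x y
    rw [List.append_assoc, List.append_assoc]
    exact app_lt _ _ _ _ (by rw [hv, hv]) (hlt _ _ hgt)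

end Pool.Agent.Helper3.RB
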